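import Mathlib

set_option autoImplicit false

/-!
# A Hilbert calculus for first order logic with equality over a relational language,
# with proofs measured by their number of bits
-/

namespace Pool.Agent.MP_f85ba2_lc

/-- First order formulas in the variables `0, 1, 2, ...` over the predicate symbols `r : R` of
arity `ar r`, besides equality. -/
inductive Fm (R : Type) (ar : R → ℕ) : Type
  | bot : Fm R ar
  | eq : ℕ → ℕ → Fm R ar
  | rel : (r : R) → (Fin (ar r) → ℕ) → Fm R ar
  | imp : Fm R ar → Fm R ar → Fm R ar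
  | all : ℕ → Fm R ar → Fm R ar

namespace Fm

variable {R : Type} {ar : R → ℕ}

/-- The length of a formula: one for each logical or predicate symbol, and the number of bits of
its index plus one for each variable. -/
def len : Fm R ar → ℕ
  | bot => 1
  | eq i j => 1 + (Nat.size i + 1) + (Nat.size j + 1)
  | rel _ v => 1 + ∑ k, (Nat.size (v k) + 1)
  | imp φ ψ => 1 + len φ + len ψ
  | all i φ => 1 + (Nat.size i + 1) + len φ

/-- Negation. -/
def neg (φ : Fm R ar) : Fm R ar := imp φ bot

/-- The set of free variables. -/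
def fv : Fm R ar → Set ℕ
  | bot => ∅
  | eq i j => {i, j}
  | rel _ v => Set.range v
  | imp φ ψ => fv φ ∪ fv ψ
  | all i φ => fv φ \ {i}

/-- Replace the free occurrences of the variable `i` by the variable `j`. -/
def sub (i j : ℕ) : Fm R ar → Fm R ar
  | bot => bot
  | eq a b => eq (if a = i then j else a) (if b = i then j else b)
  | rel r v => rel r (fun k => if v k = i then j else v k)
  | imp φ ψ => imp (sub i j φ) (sub i j ψ)
  | all k φ => if k = i then all k φ else all k (sub i j φ)

/-- The variable `j` is free for `i` (no free occurrence of `i` lies in the scope of a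
quantifier over `j`). -/
def freeFor (i j : ℕ) : Fm R ar → Prop
  | bot => True
  | eq _ _ => True
  | rel _ _ => True
  | imp φ ψ => freeFor i j φ ∧ freeFor i j ψ
  | all k φ => k = i ∨ i ∉ fv φ ∨ (k ≠ j ∧ freeFor i j φ)

end Fm

open Fm

variable {R : Type} {ar : R → ℕ}

/-- The logical axioms. -/
inductive LogicalAxiom : Fm R ar → Prop
  | k (φ ψ : Fm R ar) : LogicalAxiom (imp φ (imp ψ φ))
  | s (φ ψ χ : Fm R ar) :
      LogicalAxiom (imp (imp φ (imp ψ χ)) (imp (imp φ ψ) (imp φ χ)))
  | dn (φ : Fm R ar) : LogicalAxiom (imp (neg (neg φ)) φ)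
  | inst (i j : ℕ) (φ : Fm R ar) (h : freeFor i j φ) : LogicalAxiom (imp (all i φ) (sub i j φ))
  | dist (i : ℕ) (φ ψ : Fm R ar) (h : i ∉ fv φ) :
      LogicalAxiom (imp (all i (imp φ ψ)) (imp φ (all i ψ)))
  | refl (i : ℕ) : LogicalAxiom (eq i i)
  | leib (i j : ℕ) (φ : Fm R ar) (h : freeFor i j φ) :
      LogicalAxiom (imp (eq i j) (imp φ (sub i j φ)))

/-- `IsProof T l`: the list `l` of formulas, read from its end to its head, is a proof from the
axiomatization `T`, with the rules modus ponens and generalization. -/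
inductive IsProof (T : Set (Fm R ar)) : List (Fm R ar) → Prop
  | nil : IsProof T []
  | logic {l : List (Fm R ar)} {φ : Fm R ar} : IsProof T l → LogicalAxiom φ → IsProof T (φ :: l)
  | hyp {l : List (Fm R ar)} {φ : Fm R ar} : IsProof T l → φ ∈ T → IsProof T (φ :: l)
  | mp {l : List (Fm R ar)} {φ ψ : Fm R ar} :
      IsProof T l → φ ∈ l → imp φ ψ ∈ l → IsProof T (ψ :: l)
  | gen {l : List (Fm R ar)} {φ : Fm R ar} (i : ℕ) :
      IsProof T l → φ ∈ l → IsProof T (all i φ :: l)

/-- The length of a list of formulas. -/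
def plen (l : List (Fm R ar)) : ℕ := (l.map len).sum

/-- `Proves T m φ`, written `T ⊢^m φ` in the text: `φ` has a proof from `T` of length at
most `m`. -/
def Proves (T : Set (Fm R ar)) (m : ℕ) (φ : Fm R ar) : Prop :=
  ∃ l, IsProof T (φ :: l) ∧ plen (φ :: l) ≤ m

/-- Consistency: no proof of `⊥` of any length. -/
def Consistent (T : Set (Fm R ar)) : Prop := ∀ m, ¬ Proves T m bot

section
variable {T T' : Set (Fm R ar)} {φ ψ χ : Fm R ar} {a b m : ℕ}

lemma plen_cons (φ : Fm R ar) (l : List (Fm R ar)) : plen (φ :: l) = len φ + plen l := by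
  simp [plen]

lemma plen_append (l l' : List (Fm R ar)) : plen (l ++ l') = plen l + plen l' := by
  simp [plen]

lemma len_imp (φ ψ : Fm R ar) : len (imp φ ψ) = 1 + len φ + len ψ := rfl

lemma len_bot : len (bot : Fm R ar) = 1 := rfl

lemma len_neg (φ : Fm R ar) : len (neg φ) = len φ + 2 := by
  simp only [neg, len_imp, len_bot]; omega

lemma IsProof.append {l l' : List (Fm R ar)} (h : IsProof T l) (h' : IsProof T l') :
    IsProof T (l ++ l') := by
  induction h with
  | nil => simpa using h'
  | logic _ hφ ih => exact IsProof.logic ih hφ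
  | hyp _ hφ ih => exact IsProof.hyp ih hφ
  | mp _ h1 h2 ih => exact IsProof.mp ih (List.mem_append_left _ h1) (List.mem_append_left _ h2)
  | gen i _ h1 ih => exact IsProof.gen i ih (List.mem_append_left _ h1)

lemma IsProof.weaken {l : List (Fm R ar)} (h : IsProof T l) (hT : T ⊆ T') : IsProof T' l := by
  induction h with
  | nil => exact IsProof.nil
  | logic _ hφ ih => exact IsProof.logic ih hφ
  | hyp _ hφ ih => exact IsProof.hyp ih (hT hφ)
  | mp _ h1 h2 ih => exact IsProof.mp ih h1 h2
  | gen i _ h1 ih => exact IsProof.gen i ih h1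

lemma Proves.mono (h : Proves T m φ) {m' : ℕ} (hm : m ≤ m') : Proves T m' φ := by
  obtain ⟨l, h1, h2⟩ := h
  exact ⟨l, h1, h2.trans hm⟩

lemma Proves.weaken (h : Proves T m φ) (hT : T ⊆ T') : Proves T' m φ := by
  obtain ⟨l, h1, h2⟩ := h
  exact ⟨l, h1.weaken hT, h2⟩

lemma Proves.len_le (h : Proves T m φ) : len φ ≤ m := by
  obtain ⟨l, _, h2⟩ := h
  rw [plen_cons] at h2
  omega

lemma Proves.logic (h : LogicalAxiom φ) : Proves T (len φ) φ :=
  ⟨[], IsProof.logic IsProof.nil h, by simp [plen]⟩

lemma Proves.hyp (h : φ ∈ T) : Proves T (len φ) φ :=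
  ⟨[], IsProof.hyp IsProof.nil h, by simp [plen]⟩

lemma Proves.mp (h1 : Proves T a (imp φ ψ)) (h2 : Proves T b φ) :
    Proves T (a + b + len ψ) ψ := by
  obtain ⟨l1, h1, h1'⟩ := h1
  obtain ⟨l2, h2, h2'⟩ := h2
  refine ⟨(imp φ ψ :: l1) ++ (φ :: l2), IsProof.mp (h1.append h2) (φ := φ) ?_ ?_, ?_⟩
  · simp
  · simp
  · rw [plen_cons, plen_append]; omega

/-- Composition of implications. -/
lemma Proves.syll (h1 : Proves T a (imp φ ψ)) (h2 : Proves T b (imp ψ χ)) :
    Proves T (a + b + 20 * (len φ + len ψ + len χ + 1)) (imp φ χ) := by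
  have hk : Proves T _ (imp (imp ψ χ) (imp φ (imp ψ χ))) := Proves.logic (.k _ _)
  have hs : Proves T _ (imp (imp φ (imp ψ χ)) (imp (imp φ ψ) (imp φ χ))) :=
    Proves.logic (.s _ _ _)
  have h := (hs.mp (hk.mp h2)).mp h1
  refine h.mono ?_
  simp only [len_imp]
  omega

/-- The rule corresponding to the axiom `S`. -/
lemma Proves.app (h1 : Proves T a (imp φ (imp ψ χ))) (h2 : Proves T b (imp φ ψ)) :
    Proves T (a + b + 20 * (len φ + len ψ + len χ + 1)) (imp φ χ) := by
  have hs : Proves T _ (imp (imp φ (imp ψ χ)) (imp (imp φ ψ) (imp φ χ))) :=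
    Proves.logic (.s _ _ _)
  have h := (hs.mp h1).mp h2
  refine h.mono ?_
  simp only [len_imp]
  omega

/-- If every axiom of `T'` is provable from `T` then everything provable from `T'` is provable
from `T`. -/
lemma Proves.cut (hT : ∀ ψ ∈ T', ∃ k, Proves T k ψ) (h : Proves T' m φ) :
    ∃ k, Proves T k φ := by
  obtain ⟨l, h1, -⟩ := h
  have key : ∀ l : List (Fm R ar), IsProof T' l → ∀ ψ ∈ l, ∃ k, Proves T k ψ := by
    intro l hl
    induction hl with
    | nil => simp
    | logic _ hφ ih =>
        intro ψ hψ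
        rcases List.mem_cons.1 hψ with rfl | hψ
        · exact ⟨_, Proves.logic hφ⟩
        · exact ih ψ hψ
    | hyp _ hφ ih =>
        intro ψ hψ
        rcases List.mem_cons.1 hψ with rfl | hψ
        · exact hT _ hφ
        · exact ih ψ hψ
    | mp _ h1 h2 ih =>
        intro ψ hψ
        rcases List.mem_cons.1 hψ with rfl | hψ
        · obtain ⟨k1, hk1⟩ := ih _ h1
          obtain ⟨k2, hk2⟩ := ih _ h2
          exact ⟨_, hk2.mp hk1⟩
        · exact ih ψ hψ
    | gen i _ h1 ih =>
        intro ψ hψ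
        rcases List.mem_cons.1 hψ with rfl | hψ
        · obtain ⟨k1, l1, hl1, -⟩ := ih _ h1
          exact ⟨_, _, IsProof.gen i hl1 (by simp), le_rfl⟩
        · exact ih ψ hψ
  exact key _ h1 φ (by simp)

end

end Pool.Agent.MP_f85ba2_lc
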