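import Mathlib
import Pool.Agent.MP_f85ba2_lc.Calculus

set_option autoImplicit false

/-!
# Bounded provability and the barrier
-/

namespace Pool.Agent.MP_f85ba2_lc

open Fm

variable {R : Type} {ar : R → ℕ}

/-- The axiomatization `A + Con_A(N)`, where `PA x φ` is the sentence
`φ has an A-proof of length at most x` and `Con_A(N) = ¬ PA N ⊥`. -/
def plusCon (A : Set (Fm R ar)) (PA : ℕ → Fm R ar → Fm R ar) (N : ℕ) : Set (Fm R ar) :=
  A ∪ {neg (PA N bot)}

/-- A reasonable numeration of `A` and of the axiomatizations `A + Con_A(N)`: sentences `PA x φ`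
(`φ has an A-proof of length at most x`) and `PB N x φ` (`φ has an (A + Con_A(N))-proof of length
at most x`) satisfying the bounded derivability conditions, where `c` is the exponent of all
polynomial bounds and `Nat.size` is the number of binary digits. -/
structure Numeration (A : Set (Fm R ar)) where
  /-- the common exponent of the polynomial bounds -/
  c : ℕ
  /-- `φ has an A-proof of length at most x` -/
  PA : ℕ → Fm R ar → Fm R ar
  /-- `φ has an (A + Con_A(N))-proof of length at most x` -/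
  PB : ℕ → ℕ → Fm R ar → Fm R ar
  len_PA : ∀ x φ, len (PA x φ) ≤ (Nat.size x + len φ + 2) ^ c
  len_PB : ∀ N x φ, len (PB N x φ) ≤ (Nat.size N + Nat.size x + len φ + 2) ^ c
  /-- true bounded consistency statements are provable -/
  true_con : ∀ N, ¬ Proves A N bot → ∃ m, Proves A m (neg (PA N bot))
  /-- existing proofs can be verified -/
  verify : ∀ N x m φ, Proves (plusCon A PA N) m φ → m ≤ x →
    Proves A ((Nat.size N + Nat.size x + m + 2) ^ c) (PB N x φ)
  /-- bounded modus ponens for `A`-proofs -/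
  mpA : ∀ x y z φ ψ, x + y + (len φ + len ψ + 2) ^ c ≤ z →
    Proves A ((Nat.size z + len φ + len ψ + 2) ^ c)
      (imp (PA x (imp φ ψ)) (imp (PA y φ) (PA z ψ)))
  /-- bounded modus ponens for `(A + Con_A(N))`-proofs -/
  mpB : ∀ N x y z φ ψ, x + y + (len φ + len ψ + 2) ^ c ≤ z →
    Proves A ((Nat.size N + Nat.size z + len φ + len ψ + 2) ^ c)
      (imp (PB N x (imp φ ψ)) (imp (PB N y φ) (PB N z ψ)))
  /-- every `A`-proof is an `(A + Con_A(N))`-proof -/
  mono : ∀ N x φ, Proves A ((Nat.size N + Nat.size x + len φ + 2) ^ c)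
    (imp (PA x φ) (PB N x φ))
  /-- bounded provable completeness: from an `(A + Con_A(N))`-proof of length at most `x` one gets
  an `A`-proof, of length polynomial in `x`, of its existence -/
  complete : ∀ N x z φ, (x + Nat.size N + len φ + 2) ^ c ≤ z →
    Proves A ((Nat.size N + Nat.size z + len φ + 2) ^ c)
      (imp (PB N x φ) (PA z (PB N x φ)))
  /-- short fixed points: sentences asserting that they have no `(A + Con_A(N))`-proof of length
  at most `t` -/
  fix : ∀ N t, ∃ γ, Proves A ((Nat.size N + Nat.size t + 2) ^ c) (imp γ (neg (PB N t γ))) ∧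
    Proves A ((Nat.size N + Nat.size t + 2) ^ c) (imp (neg (PB N t γ)) γ)

/-- Functions bounded by a power of the variable, for arguments at least two. -/
def PolyF (f : ℕ → ℕ) : Prop := ∃ D, ∀ w, 2 ≤ w → f w ≤ w ^ D

namespace PolyF

lemma id : PolyF (fun w => w) := ⟨1, fun _ _ => by simp⟩

lemma const (k : ℕ) : PolyF (fun _ => k) :=
  ⟨k, fun w hw => (Nat.lt_two_pow_self (n := k)).le.trans (Nat.pow_le_pow_left hw k)⟩

lemma mul {f g : ℕ → ℕ} (hf : PolyF f) (hg : PolyF g) : PolyF (fun w => f w * g w) := by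
  obtain ⟨a, ha⟩ := hf
  obtain ⟨b, hb⟩ := hg
  refine ⟨a + b, fun w hw => ?_⟩
  rw [pow_add]
  exact Nat.mul_le_mul (ha w hw) (hb w hw)

lemma add {f g : ℕ → ℕ} (hf : PolyF f) (hg : PolyF g) : PolyF (fun w => f w + g w) := by
  obtain ⟨a, ha⟩ := hf
  obtain ⟨b, hb⟩ := hg
  refine ⟨max a b + 1, fun w hw => ?_⟩
  have h1 : f w ≤ w ^ max a b := (ha w hw).trans (Nat.pow_le_pow_right (by omega) (le_max_left _ _))
  have h2 : g w ≤ w ^ max a b := (hb w hw).trans (Nat.pow_le_pow_right (by omega) (le_max_right _ _))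
  calc f w + g w ≤ w ^ max a b + w ^ max a b := Nat.add_le_add h1 h2
    _ = w ^ max a b * 2 := by ring
    _ ≤ w ^ max a b * w := Nat.mul_le_mul_left _ hw
    _ = w ^ (max a b + 1) := by ring

lemma pow {f : ℕ → ℕ} (hf : PolyF f) (k : ℕ) : PolyF (fun w => f w ^ k) := by
  obtain ⟨a, ha⟩ := hf
  refine ⟨a * k, fun w hw => ?_⟩
  rw [pow_mul]
  exact Nat.pow_le_pow_left (ha w hw) k

end PolyF

variable {A : Set (Fm R ar)}

lemma subset_plusCon (PA : ℕ → Fm R ar → Fm R ar) (N : ℕ) : A ⊆ plusCon A PA N :=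
  Set.subset_union_left

lemma size_mono {a b : ℕ} (h : a ≤ b) : Nat.size a ≤ Nat.size b := Nat.size_le_size h

/-- If `A` shows by a proof of length `m` that `Con_{A+Con_A(N)}(M)` has an `A`-proof of length at
most `L`, then `A + Con_A(N)` proves `Con_{A+Con_A(N)}(M)` by a short proof. -/
lemma stepA (S : Numeration A) : ∃ D, ∀ N M L m,
    L + (M + Nat.size N + 2) ^ D ≤ N →
    Proves A m (S.PA L (neg (S.PB N M bot))) →
    Proves (plusCon A S.PA N) (m + (Nat.size N + 2) ^ D) (neg (S.PB N M bot)) := by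
  classical
  set c := S.c with hc
  -- explicit bounds in terms of `w = size N + 2`
  let e0 : ℕ → ℕ := fun w => (w + w + w) ^ c
  let e1 : ℕ → ℕ := fun w => (w + e0 w + w) ^ c
  let e2 : ℕ → ℕ := fun w => (w + w) ^ c
  let f1 : ℕ → ℕ := fun w => (w + w + w) ^ c
  let f2 : ℕ → ℕ := fun w => (w + e0 w + w + w) ^ c
  let F : ℕ → ℕ := fun w => f1 w + (f2 w + (1 + e1 w + e2 w)) + 20 * (e0 w + e1 w + e2 w + 1)
    + (e2 w + 2) + 20 * (e0 w + e2 w + 1 + 1)
  have hF : PolyF F := by
    have i := PolyF.id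
    have p0 : PolyF e0 := ((i.add i).add i).pow c
    have p1 : PolyF e1 := ((i.add p0).add i).pow c
    have p2 : PolyF e2 := (i.add i).pow c
    have q1 : PolyF f1 := ((i.add i).add i).pow c
    have q2 : PolyF f2 := (((i.add p0).add i).add i).pow c
    exact (((q1.add (q2.add (((PolyF.const 1).add p1).add p2))).add ((PolyF.const 20).mul
      (((p0.add p1).add p2).add (PolyF.const 1)))).add (p2.add (PolyF.const 2))).add
      ((PolyF.const 20).mul (((p0.add p2).add (PolyF.const 1)).add (PolyF.const 1)))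
  -- the bound on the size of `N`
  let G : ℕ → ℕ := fun w => (w + 1) ^ c + (e0 w + 1 + 2) ^ c
  have hG : PolyF G := by
    have i := PolyF.id
    have p0 : PolyF e0 := ((i.add i).add i).pow c
    exact ((i.add (PolyF.const 1)).pow c).add (((p0.add (PolyF.const 1)).add (PolyF.const 2)).pow c)
  obtain ⟨D1, hD1⟩ := hF
  obtain ⟨D2, hD2⟩ := hG
  refine ⟨max D1 D2 + 1, fun N M L m hN h => ?_⟩
  set w := Nat.size N + 2 with hw
  have hw2 : 2 ≤ w := by omega
  set W := M + Nat.size N + 2 with hW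
  have hWw : w ≤ W := by omega
  have hW2 : 2 ≤ W := by omega
  have hGW : G W ≤ W ^ (max D1 D2 + 1) :=
    (hD2 W hW2).trans (Nat.pow_le_pow_right (by omega) (by omega))
  have hFw : F w ≤ w ^ (max D1 D2 + 1) :=
    (hD1 w hw2).trans (Nat.pow_le_pow_right (by omega) (by omega))
  have hWN : W ≤ N := by
    have : W ≤ W ^ (max D1 D2 + 1) := by
      calc W = W ^ 1 := (pow_one W).symm
        _ ≤ W ^ (max D1 D2 + 1) := Nat.pow_le_pow_right (by omega) (by omega)
    omega
  have hMN : M ≤ N := by omega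
  have hLN : L ≤ N := by omega
  have sM : Nat.size M ≤ Nat.size N := size_mono hMN
  have sL : Nat.size L ≤ Nat.size N := size_mono hLN
  set θ := S.PB N M bot with hθ
  have lθ : len θ ≤ e0 w := by
    refine (S.len_PB N M bot).trans ?_
    apply Nat.pow_le_pow_left
    rw [len_bot]
    omega
  set z := (M + Nat.size N + 1 + 2) ^ c with hz
  have he0mono : e0 w ≤ e0 W := by
    apply Nat.pow_le_pow_left
    omega
  have hzle : L + z + (len θ + 1 + 2) ^ c ≤ N := by
    have h1 : z ≤ (W + 1) ^ c := by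
      apply Nat.pow_le_pow_left
      omega
    have h2 : (len θ + 1 + 2) ^ c ≤ (e0 W + 1 + 2) ^ c := by
      apply Nat.pow_le_pow_left
      omega
    have : G W = (W + 1) ^ c + (e0 W + 1 + 2) ^ c := rfl
    omega
  have sz : Nat.size z ≤ Nat.size N := size_mono (by omega)
  have l1 : len (S.PA z θ) ≤ e1 w := by
    refine (S.len_PA z θ).trans ?_
    apply Nat.pow_le_pow_left
    omega
  have l2 : len (S.PA N bot) ≤ e2 w := by
    refine (S.len_PA N bot).trans ?_
    apply Nat.pow_le_pow_left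
    rw [len_bot]
    omega
  -- the derivation
  have s1 : Proves A (f1 w) (imp θ (S.PA z θ)) := by
    refine (S.complete N M z bot ?_).mono ?_
    · rw [len_bot]
    · apply Nat.pow_le_pow_left
      rw [len_bot]
      omega
  have s2 : Proves A (f2 w) (imp (S.PA L (imp θ bot)) (imp (S.PA z θ) (S.PA N bot))) := by
    refine (S.mpA L z N θ bot ?_).mono ?_
    · rw [len_bot]
      exact hzle
    · apply Nat.pow_le_pow_left
      rw [len_bot]
      omega
  have s3 := s2.mp h
  have s4 := (s1.syll s3).weaken (subset_plusCon S.PA N)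
  have s5 : Proves (plusCon A S.PA N) _ (neg (S.PA N bot)) :=
    Proves.hyp (Set.mem_union_right _ (Set.mem_singleton _))
  have s6 := s4.syll s5
  refine Proves.mono (φ := neg θ) s6 ?_
  rw [len_neg, len_imp, len_bot]
  have : F w = f1 w + (f2 w + (1 + e1 w + e2 w)) + 20 * (e0 w + e1 w + e2 w + 1)
    + (e2 w + 2) + 20 * (e0 w + e2 w + 1 + 1) := rfl
  omega

/-- Bounded second incompleteness theorem for `A + Con_A(N)`. -/
lemma stepB (S : Numeration A) : ∃ D, ∀ N t M s,
    (t + Nat.size N + 2) ^ D ≤ M → M ≤ N →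
    s + (Nat.size N + Nat.size t + 2) ^ D ≤ t →
    Proves (plusCon A S.PA N) s (neg (S.PB N M bot)) →
    ∃ k, Proves (plusCon A S.PA N) k bot := by
  classical
  set c := S.c with hc
  -- explicit bounds, `w = size N + size t + 2` or `w = t + size N + 2`
  let q : ℕ → ℕ := fun w => w ^ c
  let e0 : ℕ → ℕ := fun w => (w + q w) ^ c
  let t2 : ℕ → ℕ := fun w => q w + w + (q w + (e0 w + 2) + 2) ^ c
  let z1 : ℕ → ℕ := fun w => (w + q w + w) ^ c
  let m1 : ℕ → ℕ := fun w => t2 w + z1 w + (e0 w + 1 + 2) ^ c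
  have i := PolyF.id
  have pq : PolyF q := i.pow c
  have p0 : PolyF e0 := (i.add pq).pow c
  have pt2 : PolyF t2 := (pq.add i).add (((pq.add (p0.add (PolyF.const 2))).add
    (PolyF.const 2)).pow c)
  have pz1 : PolyF z1 := ((i.add pq).add i).pow c
  have pm1 : PolyF m1 := (pt2.add pz1).add (((p0.add (PolyF.const 1)).add (PolyF.const 2)).pow c)
  -- bounds for the lengths of formulas and proofs in terms of `w = size N + size t + 2`; all
  -- sizes of numerals are at most `w`
  let g1 : ℕ → ℕ := fun w => (w + w + q w + w) ^ c           -- verify the fixed point proof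
  let g2 : ℕ → ℕ := fun w => (w + w + q w + (e0 w + 2) + w) ^ c  -- mpB
  let h1 : ℕ → ℕ := fun w => (w + w + (e0 w + 2) + w) ^ c    -- len PB N t2 (neg η)
  let h2 : ℕ → ℕ := fun w => (w + e0 w + w) ^ c              -- len PA z1 η
  let h3 : ℕ → ℕ := fun w => (w + w + e0 w + w) ^ c          -- len PB N z1 η
  let h4 : ℕ → ℕ := fun w => (w + w + w) ^ c                 -- len PB N M bot
  let g3 : ℕ → ℕ := fun w => (w + w + q w + w) ^ c           -- complete
  let g4 : ℕ → ℕ := fun w => (w + w + e0 w + w) ^ c          -- mono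
  let g5 : ℕ → ℕ := fun w => (w + w + e0 w + w + w) ^ c      -- mpB
  let F : ℕ → ℕ := fun w => g1 w + g2 w + g3 w + g4 w + g5 w + q w
    + 200 * (q w + e0 w + h1 w + h2 w + h3 w + h4 w + 1)
  have pF : PolyF F := by
    have r1 : PolyF g1 := (((i.add i).add pq).add i).pow c
    have r2 : PolyF g2 := ((((i.add i).add pq).add (p0.add (PolyF.const 2))).add i).pow c
    have r3 : PolyF g3 := (((i.add i).add pq).add i).pow c
    have r4 : PolyF g4 := (((i.add i).add p0).add i).pow c
    have r5 : PolyF g5 := ((((i.add i).add p0).add i).add i).pow c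
    have k1 : PolyF h1 := (((i.add i).add (p0.add (PolyF.const 2))).add i).pow c
    have k2 : PolyF h2 := ((i.add p0).add i).pow c
    have k3 : PolyF h3 := (((i.add i).add p0).add i).pow c
    have k4 : PolyF h4 := ((i.add i).add i).pow c
    exact (((((r1.add r2).add r3).add r4).add r5).add pq).add ((PolyF.const 200).mul
      ((((((pq.add p0).add k1).add k2).add k3).add k4).add (PolyF.const 1)))
  obtain ⟨D1, hD1⟩ := pm1
  obtain ⟨D2, hD2⟩ := pF
  refine ⟨max D1 D2 + 1, fun N t M s hM hMN hs h => ?_⟩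
  set w := Nat.size N + Nat.size t + 2 with hw
  have hw2 : 2 ≤ w := by omega
  set W := t + Nat.size N + 2 with hW
  have hst : Nat.size t ≤ t := Nat.size_le.2 Nat.lt_two_pow_self
  have hwW : w ≤ W := by omega
  have hW2 : 2 ≤ W := by omega
  have hmW : m1 W ≤ W ^ (max D1 D2 + 1) :=
    (hD1 W hW2).trans (Nat.pow_le_pow_right (by omega) (by omega))
  have hFw : F w ≤ w ^ (max D1 D2 + 1) :=
    (hD2 w hw2).trans (Nat.pow_le_pow_right (by omega) (by omega))
  have hFt : s + F w ≤ t := by omega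
  have hmM : m1 W ≤ M := by omega
  -- the fixed point
  obtain ⟨γ, hγ1, hγ2⟩ := S.fix N t
  set η := S.PB N t γ with hη
  change Proves A (q w) _ at hγ1 hγ2
  have lγ : len γ ≤ q w := by
    have := hγ1.len_le
    rw [len_imp] at this
    omega
  have lη : len η ≤ e0 w := by
    refine (S.len_PB N t γ).trans ?_
    apply Nat.pow_le_pow_left
    omega
  have qmono : q w ≤ q W := Nat.pow_le_pow_left hwW c
  have e0mono : e0 w ≤ e0 W := by
    apply Nat.pow_le_pow_left
    omega
  set T2 := q w + t + (len γ + len (neg η) + 2) ^ c with hT2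
  set Z1 := (t + Nat.size N + len γ + 2) ^ c with hZ1
  have hT2le : T2 ≤ t2 W := by
    have : (len γ + len (neg η) + 2) ^ c ≤ (q W + (e0 W + 2) + 2) ^ c := by
      apply Nat.pow_le_pow_left
      rw [len_neg]
      omega
    change T2 ≤ q W + W + (q W + (e0 W + 2) + 2) ^ c
    omega
  have hZ1le : Z1 ≤ z1 W := by
    apply Nat.pow_le_pow_left
    omega
  have hmle : T2 + Z1 + (len η + 1 + 2) ^ c ≤ M := by
    have : (len η + 1 + 2) ^ c ≤ (e0 W + 1 + 2) ^ c := by
      apply Nat.pow_le_pow_left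
      omega
    have h' : m1 W = t2 W + z1 W + (e0 W + 1 + 2) ^ c := rfl
    omega
  have sM : Nat.size M ≤ Nat.size N := size_mono hMN
  have sT : Nat.size T2 ≤ Nat.size N := size_mono (by omega)
  have sZ : Nat.size Z1 ≤ Nat.size N := size_mono (by omega)
  have sq : Nat.size (q w) ≤ Nat.size N := size_mono (by omega)
  have lnη : len (neg η) ≤ e0 w + 2 := by rw [len_neg]; omega
  have k1 : len (S.PB N T2 (neg η)) ≤ h1 w := by
    refine (S.len_PB N T2 (neg η)).trans ?_
    apply Nat.pow_le_pow_left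
    omega
  have k2 : len (S.PA Z1 η) ≤ h2 w := by
    refine (S.len_PA Z1 η).trans ?_
    apply Nat.pow_le_pow_left
    omega
  have k3 : len (S.PB N Z1 η) ≤ h3 w := by
    refine (S.len_PB N Z1 η).trans ?_
    apply Nat.pow_le_pow_left
    omega
  have k4 : len (S.PB N M bot) ≤ h4 w := by
    refine (S.len_PB N M bot).trans ?_
    apply Nat.pow_le_pow_left
    rw [len_bot]
    omega
  -- the derivation
  have a1 : Proves A (g1 w) (S.PB N (q w) (imp γ (neg η))) := by
    refine (S.verify N (q w) (q w) _ (hγ1.weaken (subset_plusCon S.PA N)) le_rfl).mono ?_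
    apply Nat.pow_le_pow_left
    omega
  have a2 : Proves A (g2 w)
      (imp (S.PB N (q w) (imp γ (neg η))) (imp η (S.PB N T2 (neg η)))) := by
    refine (S.mpB N (q w) t T2 γ (neg η) le_rfl).mono ?_
    apply Nat.pow_le_pow_left
    omega
  have a3 := a2.mp a1
  have a4 : Proves A (g3 w) (imp η (S.PA Z1 η)) := by
    refine (S.complete N t Z1 γ le_rfl).mono ?_
    apply Nat.pow_le_pow_left
    omega
  have a5 : Proves A (g4 w) (imp (S.PA Z1 η) (S.PB N Z1 η)) := by
    refine (S.mono N Z1 η).mono ?_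
    apply Nat.pow_le_pow_left
    omega
  have a6 := a4.syll a5
  have a7 : Proves A (g5 w)
      (imp (S.PB N T2 (neg η)) (imp (S.PB N Z1 η) (S.PB N M bot))) := by
    refine (S.mpB N T2 Z1 M η bot ?_).mono ?_
    · rw [len_bot]
      exact hmle
    · apply Nat.pow_le_pow_left
      rw [len_bot]
      omega
  have a8 := a3.syll a7
  have a9 := a8.app a6
  have a10 : Proves (plusCon A S.PA N) _ (neg η) :=
    (a9.weaken (subset_plusCon S.PA N)).syll h
  have a11 := (hγ2.weaken (subset_plusCon S.PA N)).mp a10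
  have a12 := S.verify N t _ γ a11 ?_
  · exact ⟨_, a10.mp (a12.weaken (subset_plusCon S.PA N))⟩
  · refine le_trans ?_ hFt
    have hF : F w = g1 w + g2 w + g3 w + g4 w + g5 w + q w
      + 200 * (q w + e0 w + h1 w + h2 w + h3 w + h4 w + 1) := rfl
    simp only [len_imp, len_bot]
    omega

/-- Consistency passes from `A` to `A + Con_A(N)`. -/
lemma consistent_plusCon (S : Numeration A) (hA : Consistent A) (N : ℕ) :
    Consistent (plusCon A S.PA N) := by
  intro m hm
  obtain ⟨k, hk⟩ := S.true_con N (hA N)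
  have hcut : ∀ ψ ∈ plusCon A S.PA N, ∃ k, Proves A k ψ := by
    intro ψ hψ
    rcases hψ with hψ | hψ
    · exact ⟨_, Proves.hyp hψ⟩
    · rw [Set.mem_singleton_iff] at hψ
      subst hψ
      exact ⟨k, hk⟩
  obtain ⟨j, hj⟩ := Proves.cut hcut hm
  exact hA j hj

lemma exists_exponent (D : ℕ) : ∃ k, D + 1 ≤ k ∧ (k + 1) ^ D + 2 ≤ 2 ^ (k - D) := by
  have h := tendsto_pow_const_div_const_pow_of_one_lt D (r := (2 : ℝ)) one_lt_two
  have hε : (0 : ℝ) < 1 / (3 * 2 ^ (D + 1)) := by positivity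
  have h1 := (h.eventually (gt_mem_nhds hε)).and (Filter.eventually_ge_atTop (D + 2))
  obtain ⟨n, hn, hn2⟩ := h1.exists
  obtain ⟨j, rfl⟩ : ∃ j, n = j + D + 1 := ⟨n - D - 1, by omega⟩
  refine ⟨j + D, by omega, ?_⟩
  have hj : j + D - D = j := by omega
  rw [hj]
  have h2 : ((j + D + 1 : ℕ) : ℝ) ^ D * (3 * 2 ^ (D + 1)) < 2 ^ (j + D + 1) := by
    rw [div_lt_div_iff₀ (by positivity) (by positivity), one_mul] at hn
    exact hn
  have h3 : (j + D + 1) ^ D * (3 * 2 ^ (D + 1)) < 2 ^ (j + D + 1) := by exact_mod_cast h2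
  have h4 : (2 : ℕ) ^ (j + D + 1) = 2 ^ j * 2 ^ (D + 1) := by
    rw [← pow_add]
    congr 1
  rw [h4] at h3
  have h5 : (j + D + 1) ^ D * 3 < 2 ^ j := by
    have hp : 0 < 2 ^ (D + 1) := by positivity
    have : ((j + D + 1) ^ D * 3) * 2 ^ (D + 1) < 2 ^ j * 2 ^ (D + 1) := by
      calc ((j + D + 1) ^ D * 3) * 2 ^ (D + 1) = (j + D + 1) ^ D * (3 * 2 ^ (D + 1)) := by ring
        _ < _ := h3
    exact lt_of_mul_lt_mul_right this hp.le
  have h6 : 1 ≤ (j + D + 1) ^ D := Nat.one_le_pow _ _ (by omega)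
  omega

/-- The barrier. -/
theorem barrier (S : Numeration A) (hA : Consistent A) : ∃ K, ∀ N M L m,
    (m + Nat.size N + 2) ^ K ≤ M → L + (M + Nat.size N + 2) ^ K ≤ N →
    ¬ Proves A m (S.PA L (neg (S.PB N M bot))) := by
  obtain ⟨D1, hD1⟩ := stepA S
  obtain ⟨D2, hD2⟩ := stepB S
  set D := max D1 D2 + 1 with hD
  obtain ⟨k, hk, hk2⟩ := exists_exponent D
  refine ⟨D + (k + 1) * D2, fun N M L m hM hN h => ?_⟩
  set u := m + Nat.size N + 2 with hu
  have hu2 : 2 ≤ u := by omega
  have hK1 : D1 ≤ D + (k + 1) * D2 := by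
    have := Nat.zero_le ((k + 1) * D2)
    omega
  have hbase : 1 ≤ M + Nat.size N + 2 := by omega
  have hN1 : L + (M + Nat.size N + 2) ^ D1 ≤ N := by
    have := Nat.pow_le_pow_right hbase hK1
    omega
  have hMN : M ≤ N := by
    have h1 : M + Nat.size N + 2 ≤ (M + Nat.size N + 2) ^ (D + (k + 1) * D2) := by
      calc M + Nat.size N + 2 = (M + Nat.size N + 2) ^ 1 := (pow_one _).symm
        _ ≤ _ := Nat.pow_le_pow_right hbase (by omega)
    omega
  have hs := hD1 N M L m hN1 h
  have c1 : (u ^ k + Nat.size N + 2) ^ D2 ≤ M := by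
    refine le_trans ?_ hM
    calc (u ^ k + Nat.size N + 2) ^ D2 ≤ (u ^ (k + 1)) ^ D2 := by
          apply Nat.pow_le_pow_left
          have h1 : u ≤ u ^ k := by
            calc u = u ^ 1 := (pow_one _).symm
              _ ≤ _ := Nat.pow_le_pow_right (by omega) (by omega)
          have h2 : u ^ k + u ^ k ≤ u ^ (k + 1) := by
            rw [pow_succ]
            calc u ^ k + u ^ k = u ^ k * 2 := by ring
              _ ≤ u ^ k * u := Nat.mul_le_mul_left _ hu2
          omega
      _ = u ^ ((k + 1) * D2) := by rw [← pow_mul]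
      _ ≤ u ^ (D + (k + 1) * D2) := Nat.pow_le_pow_right (by omega) (by omega)
  have c2 : m + (Nat.size N + 2) ^ D1 + (Nat.size N + Nat.size (u ^ k) + 2) ^ D2 ≤ u ^ k := by
    have hsz : Nat.size (u ^ k) ≤ k * u := by
      rw [Nat.size_le]
      calc u ^ k < (2 ^ u) ^ k := Nat.pow_lt_pow_left Nat.lt_two_pow_self (by omega)
        _ = 2 ^ (k * u) := by rw [← pow_mul, mul_comm]
    have hb : Nat.size N + Nat.size (u ^ k) + 2 ≤ (k + 1) * u := by
      have : (k + 1) * u = k * u + u := by ring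
      omega
    have h1 : (Nat.size N + Nat.size (u ^ k) + 2) ^ D2 ≤ (k + 1) ^ D * u ^ D := by
      calc (Nat.size N + Nat.size (u ^ k) + 2) ^ D2
          ≤ (Nat.size N + Nat.size (u ^ k) + 2) ^ D :=
            Nat.pow_le_pow_right (by omega) (by omega)
        _ ≤ ((k + 1) * u) ^ D := Nat.pow_le_pow_left hb D
        _ = (k + 1) ^ D * u ^ D := mul_pow _ _ _
    have h2 : (Nat.size N + 2) ^ D1 ≤ u ^ D := by
      calc (Nat.size N + 2) ^ D1 ≤ (Nat.size N + 2) ^ D :=
            Nat.pow_le_pow_right (by omega) (by omega)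
        _ ≤ u ^ D := Nat.pow_le_pow_left (by omega) D
    have h3 : m ≤ u ^ D := by
      calc m ≤ u := by omega
        _ = u ^ 1 := (pow_one _).symm
        _ ≤ u ^ D := Nat.pow_le_pow_right (by omega) (by omega)
    calc m + (Nat.size N + 2) ^ D1 + (Nat.size N + Nat.size (u ^ k) + 2) ^ D2
        ≤ u ^ D + u ^ D + (k + 1) ^ D * u ^ D := by omega
      _ = ((k + 1) ^ D + 2) * u ^ D := by ring
      _ ≤ 2 ^ (k - D) * u ^ D := Nat.mul_le_mul_right _ hk2
      _ ≤ u ^ (k - D) * u ^ D := Nat.mul_le_mul_right _ (Nat.pow_le_pow_left hu2 _)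
      _ = u ^ k := by rw [← pow_add]; congr 1; omega
  obtain ⟨j, hj⟩ := hD2 N (u ^ k) M (m + (Nat.size N + 2) ^ D1) c1 hMN c2 hs
  exact consistent_plusCon S hA N j hj

lemma eventually_pow_le (e : ℕ) : ∃ n₀, ∀ n, n₀ ≤ n → n ^ e ≤ 2 ^ (n - 1) := by
  have h := tendsto_pow_const_div_const_pow_of_one_lt e (r := (2 : ℝ)) one_lt_two
  have hε : (0 : ℝ) < 1 / 2 := by norm_num
  have h1 := (h.eventually (gt_mem_nhds hε)).and (Filter.eventually_ge_atTop 1)
  obtain ⟨n₀, hn₀⟩ := Filter.eventually_atTop.1 h1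
  refine ⟨n₀, fun n hn => ?_⟩
  obtain ⟨h2, h3⟩ := hn₀ n hn
  obtain ⟨i, rfl⟩ : ∃ i, n = i + 1 := ⟨n - 1, by omega⟩
  have hi : i + 1 - 1 = i := by omega
  rw [hi]
  rw [div_lt_div_iff₀ (by positivity) (by positivity), one_mul] at h2
  have h4 : (i + 1) ^ e * 2 < 2 ^ (i + 1) := by exact_mod_cast h2
  rw [pow_succ 2 i] at h4
  omega

/-- The barrier for `N = 2 ^ n` and `M = n ^ k`. -/
theorem barrier_pow (S : Numeration A) (hA : Consistent A) : ∀ j : ℕ, ∃ k₀ : ℕ, ∀ k, k₀ ≤ k →
    ∃ n₀ : ℕ, ∀ n, n₀ ≤ n → ∀ L, L ≤ 2 ^ (n - 1) →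
      ¬ Proves A (n ^ j) (S.PA L (neg (S.PB (2 ^ n) (n ^ k) bot))) := by
  obtain ⟨K, hK⟩ := barrier S hA
  intro j
  refine ⟨(j + 2) * K, fun k hk => ?_⟩
  obtain ⟨n₁, hn₁⟩ := eventually_pow_le ((k + 2) * K)
  refine ⟨max n₁ 3, fun n hn L hL => ?_⟩
  have hn1 : n₁ ≤ n := le_trans (le_max_left _ _) hn
  have hn3 : 3 ≤ n := le_trans (le_max_right _ _) hn
  have hsz : Nat.size (2 ^ n) = n + 1 := Nat.size_pow
  have key : ∀ i : ℕ, n ^ i + (n + 1) + 2 ≤ n ^ (i + 2) := by
    intro i
    have h1 : n ^ i ≤ n ^ (i + 1) := Nat.pow_le_pow_right (by omega) (by omega)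
    have h2 : n ≤ n ^ (i + 1) := by
      calc n = n ^ 1 := (pow_one n).symm
        _ ≤ n ^ (i + 1) := Nat.pow_le_pow_right (by omega) (by omega)
    calc n ^ i + (n + 1) + 2 ≤ n ^ (i + 1) * 3 := by omega
      _ ≤ n ^ (i + 1) * n := Nat.mul_le_mul_left _ hn3
      _ = n ^ (i + 2) := by ring
  apply hK
  · rw [hsz]
    calc (n ^ j + (n + 1) + 2) ^ K ≤ (n ^ (j + 2)) ^ K := Nat.pow_le_pow_left (key j) K
      _ = n ^ ((j + 2) * K) := by rw [← pow_mul]
      _ ≤ n ^ k := Nat.pow_le_pow_right (by omega) hk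
  · rw [hsz]
    have h1 : (n ^ k + (n + 1) + 2) ^ K ≤ 2 ^ (n - 1) := by
      calc (n ^ k + (n + 1) + 2) ^ K ≤ (n ^ (k + 2)) ^ K := Nat.pow_le_pow_left (key k) K
        _ = n ^ ((k + 2) * K) := by rw [← pow_mul]
        _ ≤ 2 ^ (n - 1) := hn₁ n hn1
    have h2 : 2 ^ n = 2 ^ (n - 1) + 2 ^ (n - 1) := by
      obtain ⟨i, rfl⟩ : ∃ i, n = i + 1 := ⟨n - 1, by omega⟩
      have hi : i + 1 - 1 = i := by omega
      rw [hi, pow_succ]
      ring
    omega

end Pool.Agent.MP_f85ba2_lc
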