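import Pool.Agent.MP_f85ba2_lc.Calculus

set_option autoImplicit false

/-!
# Soundness and completeness of the Hilbert calculus
-/

namespace Pool.Agent.MP_f85ba2_lc

open Fm

variable {R : Type} {ar : R → ℕ}

/-! ### Semantics -/

/-- Satisfaction of a formula under an assignment in a structure `I` on `M`. -/
def Sat {M : Type} (I : (r : R) → (Fin (ar r) → M) → Prop) : (ℕ → M) → Fm R ar → Prop
  | _, bot => False
  | s, eq i j => s i = s j
  | s, rel r v => I r (fun k => s (v k))
  | s, imp φ ψ => Sat I s φ → Sat I s ψ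
  | s, all i φ => ∀ x : M, Sat I (Function.update s i x) φ

namespace Fm

/-- all variables, free or bound, of a formula -/
def occ : Fm R ar → Finset ℕ
  | bot => ∅
  | eq i j => {i, j}
  | rel _ v => Finset.univ.image v
  | imp φ ψ => occ φ ∪ occ ψ
  | all i φ => insert i (occ φ)

/-- number of connectives -/
def cplx : Fm R ar → ℕ
  | bot => 0
  | eq _ _ => 0
  | rel _ _ => 0
  | imp φ ψ => cplx φ + cplx ψ + 1
  | all _ φ => cplx φ + 1

/-- `j` is not bound in the formula -/
def nb (j : ℕ) : Fm R ar → Prop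
  | bot => True
  | eq _ _ => True
  | rel _ _ => True
  | imp φ ψ => nb j φ ∧ nb j ψ
  | all k φ => k ≠ j ∧ nb j φ

theorem fv_sub_occ (φ : Fm R ar) : fv φ ⊆ (occ φ : Set ℕ) := by
  induction φ with
  | bot => simp [fv]
  | eq i j => intro x hx; simpa [fv, occ] using hx
  | rel r v => intro x hx; simpa [fv, occ] using hx
  | imp φ ψ h1 h2 =>
    intro x hx
    rcases hx with hx | hx
    · have := h1 hx; simp [occ]; left; exact this
    · have := h2 hx; simp [occ]; right; exact this
  | all i φ h =>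
    intro x hx
    have := h hx.1
    simp [occ]; right; exact this

theorem nb_of_notMem {j : ℕ} {φ : Fm R ar} (h : j ∉ occ φ) : nb j φ := by
  induction φ with
  | bot => trivial
  | eq _ _ => trivial
  | rel _ _ => trivial
  | imp φ ψ h1 h2 =>
    simp only [occ, Finset.mem_union, not_or] at h
    exact ⟨h1 h.1, h2 h.2⟩
  | all i φ h1 =>
    simp only [occ, Finset.mem_insert, not_or] at h
    exact ⟨Ne.symm h.1, h1 h.2⟩

theorem freeFor_of_nb {j : ℕ} (i : ℕ) {φ : Fm R ar} (h : nb j φ) : freeFor i j φ := by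
  induction φ with
  | bot => trivial
  | eq _ _ => trivial
  | rel _ _ => trivial
  | imp φ ψ h1 h2 => exact ⟨h1 h.1, h2 h.2⟩
  | all k φ h1 => exact Or.inr (Or.inr ⟨h.1, h1 h.2⟩)

theorem freeFor_self (i : ℕ) (φ : Fm R ar) : freeFor i i φ := by
  induction φ with
  | bot => trivial
  | eq _ _ => trivial
  | rel _ _ => trivial
  | imp φ ψ h1 h2 => exact ⟨h1, h2⟩
  | all k φ h1 =>
    by_cases hk : k = i
    · exact Or.inl hk
    · exact Or.inr (Or.inr ⟨hk, h1⟩)

theorem sub_self (i : ℕ) (φ : Fm R ar) : sub i i φ = φ := by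
  induction φ with
  | bot => rfl
  | eq a b =>
    have h : ∀ a, (if a = i then i else a) = a := fun a => by
      split_ifs with h
      · exact h.symm
      · rfl
    simp only [sub, h]
  | rel r v =>
    have h : ∀ a, (if a = i then i else a) = a := fun a => by
      split_ifs with h
      · exact h.symm
      · rfl
    simp only [sub, h]
  | imp φ ψ h1 h2 => simp [sub, h1, h2]
  | all k φ h1 => simp [sub, h1]

theorem sub_of_notMem {i : ℕ} (j : ℕ) {φ : Fm R ar} (h : i ∉ fv φ) : sub i j φ = φ := by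
  induction φ with
  | bot => rfl
  | eq a b =>
    simp only [fv, Set.mem_insert_iff, Set.mem_singleton_iff, not_or] at h
    simp only [sub]
    rw [if_neg (fun e => h.1 e.symm), if_neg (fun e => h.2 e.symm)]
  | rel r v =>
    simp only [fv, Set.mem_range, not_exists] at h
    simp only [sub]
    congr 1
    funext k
    rw [if_neg (h k)]
  | imp φ ψ h1 h2 =>
    simp only [fv, Set.mem_union, not_or] at h
    simp [sub, h1 h.1, h2 h.2]
  | all k φ h1 =>
    simp only [sub]
    split_ifs with hk
    · rfl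
    · rw [h1 (fun h' => h ⟨h', fun e => hk e.symm⟩)]

theorem cplx_sub (i j : ℕ) (φ : Fm R ar) : cplx (sub i j φ) = cplx φ := by
  induction φ with
  | bot => rfl
  | eq a b => rfl
  | rel r v => rfl
  | imp φ ψ h1 h2 => simp [sub, cplx, h1, h2]
  | all k φ h1 =>
    simp only [sub]
    split_ifs
    · rfl
    · simp [cplx, h1]

theorem nb_sub {k : ℕ} (i j : ℕ) {φ : Fm R ar} (h : nb k φ) : nb k (sub i j φ) := by
  induction φ with
  | bot => trivial
  | eq a b => trivial
  | rel r v => trivial
  | imp φ ψ h1 h2 => exact ⟨h1 h.1, h2 h.2⟩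
  | all l φ h1 =>
    simp only [sub]
    split_ifs
    · exact h
    · exact ⟨h.1, h1 h.2⟩

theorem sub_sub_cancel {j k : ℕ} {φ : Fm R ar} (hk : k ∉ occ φ) : sub k j (sub j k φ) = φ := by
  induction φ with
  | bot => rfl
  | eq a b =>
    simp only [occ, Finset.mem_insert, Finset.mem_singleton, not_or] at hk
    simp only [sub]
    congr 1
    · split_ifs with h1 h2 h2
      · exact h1.symm
      · exact absurd rfl h2
      · exact absurd h2.symm hk.1
      · rfl
    · split_ifs with h1 h2 h2
      · exact h1.symm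
      · exact absurd rfl h2
      · exact absurd h2.symm hk.2
      · rfl
  | rel r v =>
    simp only [occ, Finset.mem_image, Finset.mem_univ, true_and, not_exists] at hk
    simp only [sub]
    congr 1
    funext l
    split_ifs with h1 h2 h2
    · exact h1.symm
    · exact absurd rfl h2
    · exact absurd h2 (hk l)
    · rfl
  | imp φ ψ h1 h2 =>
    simp only [occ, Finset.mem_union, not_or] at hk
    simp [sub, h1 hk.1, h2 hk.2]
  | all l φ h1 =>
    simp only [occ, Finset.mem_insert, not_or] at hk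
    have hf : k ∉ fv φ := fun h => hk.2 (fv_sub_occ φ h)
    simp only [sub]
    split_ifs with h2
    · simp only [sub]
      rw [if_neg (Ne.symm hk.1), sub_of_notMem j hf]
    · simp only [sub]
      rw [if_neg (Ne.symm hk.1), h1 hk.2]

theorem freeFor_back {i j : ℕ} {φ : Fm R ar} (hj : j ∉ occ φ) : freeFor j i (sub i j φ) := by
  induction φ with
  | bot => trivial
  | eq a b => trivial
  | rel r v => trivial
  | imp φ ψ h1 h2 =>
    simp only [occ, Finset.mem_union, not_or] at hj
    exact ⟨h1 hj.1, h2 hj.2⟩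
  | all l φ h1 =>
    simp only [occ, Finset.mem_insert, not_or] at hj
    simp only [sub]
    split_ifs with h2
    · exact Or.inr (Or.inl fun h => hj.2 (fv_sub_occ φ h))
    · exact Or.inr (Or.inr ⟨h2, h1 hj.2⟩)

theorem notMem_fv_sub {j k : ℕ} (hjk : j ≠ k) (φ : Fm R ar) : j ∉ fv (sub j k φ) := by
  induction φ with
  | bot => simp [sub, fv]
  | eq a b =>
    simp only [sub, fv, Set.mem_insert_iff, Set.mem_singleton_iff, not_or]
    constructor
    · split_ifs with h
      · exact hjk
      · exact fun e => h e.symm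
    · split_ifs with h
      · exact hjk
      · exact fun e => h e.symm
  | rel r v =>
    simp only [sub, fv, Set.mem_range, not_exists]
    intro l
    split_ifs with h
    · exact hjk.symm
    · exact h
  | imp φ ψ h1 h2 =>
    simp only [sub, fv, Set.mem_union, not_or]
    exact ⟨h1, h2⟩
  | all l φ h1 =>
    simp only [sub]
    split_ifs with h
    · simp [fv, h]
    · exact fun h' => h1 h'.1

end Fm

section sem

variable {M : Type} (I : (r : R) → (Fin (ar r) → M) → Prop)

theorem sat_congr {φ : Fm R ar} : ∀ {s s' : ℕ → M}, (∀ i ∈ fv φ, s i = s' i) →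
    (Sat I s φ ↔ Sat I s' φ) := by
  induction φ with
  | bot => intro s s' _; exact Iff.rfl
  | eq i j =>
    intro s s' h
    show (s i = s j ↔ s' i = s' j)
    rw [h i (by simp [fv]), h j (by simp [fv])]
  | rel r v =>
    intro s s' h
    show (I r _ ↔ I r _)
    have : (fun k => s (v k)) = fun k => s' (v k) := by
      funext k; exact h _ (by simp [fv])
    rw [this]
  | imp φ ψ h1 h2 =>
    intro s s' h
    show ((_ → _) ↔ (_ → _))
    rw [h1 (fun i hi => h i (Or.inl hi)), h2 (fun i hi => h i (Or.inr hi))]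
  | all k φ h1 =>
    intro s s' h
    show ((∀ x, _) ↔ (∀ x, _))
    refine forall_congr' fun x => h1 fun i hi => ?_
    by_cases hk : i = k
    · subst hk; simp
    · rw [Function.update_of_ne hk, Function.update_of_ne hk]
      exact h i ⟨hi, hk⟩

theorem sat_sub {i j : ℕ} {φ : Fm R ar} : ∀ {s : ℕ → M}, freeFor i j φ →
    (Sat I s (sub i j φ) ↔ Sat I (Function.update s i (s j)) φ) := by
  induction φ with
  | bot => intro s _; exact Iff.rfl
  | eq a b =>
    intro s _
    show (s (if a = i then j else a) = s (if b = i then j else b) ↔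
      Function.update s i (s j) a = Function.update s i (s j) b)
    have : ∀ a, s (if a = i then j else a) = Function.update s i (s j) a := by
      intro a
      by_cases ha : a = i
      · subst ha; simp
      · rw [if_neg ha, Function.update_of_ne ha]
    rw [this, this]
  | rel r v =>
    intro s _
    show (I r (fun k => s (if v k = i then j else v k)) ↔
      I r (fun k => Function.update s i (s j) (v k)))
    have : (fun k => s (if v k = i then j else v k)) =
        fun k => Function.update s i (s j) (v k) := by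
      funext k
      by_cases ha : v k = i
      · rw [if_pos ha, ha]; simp
      · rw [if_neg ha, Function.update_of_ne ha]
    rw [this]
  | imp φ ψ h1 h2 =>
    intro s h
    show ((_ → _) ↔ (_ → _))
    rw [h1 h.1, h2 h.2]
  | all k φ h1 =>
    intro s h
    simp only [sub]
    split_ifs with hk
    · refine sat_congr I fun l hl => ?_
      have : l ≠ i := fun e => hl.2 (by rw [e, hk]; rfl)
      rw [Function.update_of_ne this]
    · show ((∀ x, _) ↔ (∀ x, _))
      refine forall_congr' fun x => ?_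
      rcases h with h | h | ⟨h, h'⟩
      · exact absurd h hk
      · rw [sub_of_notMem j h]
        refine sat_congr I fun l hl => ?_
        have hli : l ≠ i := fun e => h (e ▸ hl)
        by_cases hlk : l = k
        · subst hlk; simp
        · rw [Function.update_of_ne hlk, Function.update_of_ne hlk, Function.update_of_ne hli]
      · rw [h1 h']
        have e1 : Function.update s k x j = s j := Function.update_of_ne (Ne.symm h) _ _
        rw [e1, Function.update_comm (Ne.symm hk)]

theorem sat_axiom {φ : Fm R ar} (h : LogicalAxiom φ) (s : ℕ → M) : Sat I s φ := by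
  cases h with
  | k φ ψ => exact fun h _ => h
  | s φ ψ χ => exact fun h h' h'' => h h'' (h' h'')
  | dn φ => exact fun h => by_contra h
  | inst i j φ h => exact fun h' => (sat_sub I h).2 (h' _)
  | dist i φ ψ h =>
    intro h1 h2 x
    refine h1 x ((sat_congr I fun l hl => ?_).1 h2)
    have : l ≠ i := fun e => h (e ▸ hl)
    rw [Function.update_of_ne this]
  | refl i => exact rfl
  | leib i j φ h =>
    intro h1 h2
    refine (sat_sub I h).2 ?_
    have h1' : s i = s j := h1
    rw [← h1', Function.update_eq_self]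
    exact h2

/-- Soundness. -/
theorem sound {T : Set (Fm R ar)} (hT : ∀ ψ ∈ T, ∀ s, Sat I s ψ) {l : List (Fm R ar)}
    (h : IsProof T l) : ∀ φ ∈ l, ∀ s, Sat I s φ := by
  induction h with
  | nil => simp
  | logic _ hφ ih =>
    intro ψ hψ s
    rcases List.mem_cons.1 hψ with rfl | hψ
    · exact sat_axiom I hφ s
    · exact ih ψ hψ s
  | hyp _ hφ ih =>
    intro ψ hψ s
    rcases List.mem_cons.1 hψ with rfl | hψ
    · exact hT _ hφ s
    · exact ih ψ hψ s
  | mp _ h1 h2 ih =>
    intro ψ hψ s
    rcases List.mem_cons.1 hψ with rfl | hψ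
    · exact ih _ h2 s (ih _ h1 s)
    · exact ih ψ hψ s
  | gen i _ h1 ih =>
    intro ψ hψ s
    rcases List.mem_cons.1 hψ with rfl | hψ
    · exact fun x => ih _ h1 _
    · exact ih ψ hψ s

end sem

/-! ### Derivability -/

/-- `φ` is derivable from `T`. -/
def Der (T : Set (Fm R ar)) (φ : Fm R ar) : Prop := ∃ m, Proves T m φ

section der

variable {T : Set (Fm R ar)} {φ ψ χ : Fm R ar}

theorem Der.ax (h : LogicalAxiom φ) : Der T φ := ⟨_, Proves.logic h⟩
theorem Der.hyp (h : φ ∈ T) : Der T φ := ⟨_, Proves.hyp h⟩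
theorem Der.mp (h : Der T (imp φ ψ)) (h' : Der T φ) : Der T ψ := by
  obtain ⟨a, h⟩ := h
  obtain ⟨b, h'⟩ := h'
  exact ⟨_, h.mp h'⟩
theorem Der.gen (i : ℕ) (h : Der T φ) : Der T (all i φ) := by
  obtain ⟨a, l, h, -⟩ := h
  exact ⟨_, _, IsProof.gen i h (by simp), le_rfl⟩

theorem Der.sound {M : Type} (I : (r : R) → (Fin (ar r) → M) → Prop) (h : Der T φ)
    (hT : ∀ ψ ∈ T, ∀ s, Sat I s ψ) (s : ℕ → M) : Sat I s φ := by
  obtain ⟨a, l, h, -⟩ := h
  exact Pool.Agent.MP_f85ba2_lc.sound I hT h _ (by simp) s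

/-- Derivability from `T` and the local assumptions `G`. -/
inductive Loc (T G : Set (Fm R ar)) : Fm R ar → Prop
  | mem {φ : Fm R ar} : φ ∈ G → Loc T G φ
  | der {φ : Fm R ar} : Der T φ → Loc T G φ
  | mp {φ ψ : Fm R ar} : Loc T G (imp φ ψ) → Loc T G φ → Loc T G ψ

variable {G G' : Set (Fm R ar)}

theorem Loc.mono (hG : G ⊆ G') (h : Loc T G φ) : Loc T G' φ := by
  induction h with
  | mem h => exact .mem (hG h)
  | der h => exact .der h
  | mp _ _ h1 h2 => exact .mp h1 h2

theorem Loc.ax (h : LogicalAxiom φ) : Loc T G φ := .der (.ax h)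

theorem Loc.id (φ : Fm R ar) : Loc T G (imp φ φ) :=
  .mp (.mp (.ax (.s φ (imp φ φ) φ)) (.ax (.k _ _))) (.ax (.k _ _))

/-- The deduction theorem. -/
theorem Loc.ded (h : Loc T (insert ψ G) φ) : Loc T G (imp ψ φ) := by
  induction h with
  | mem h =>
    rcases h with rfl | h
    · exact Loc.id _
    · exact .mp (.ax (.k _ _)) (.mem h)
  | der h => exact .mp (.ax (.k _ _)) (.der h)
  | mp _ _ h1 h2 => exact .mp (.mp (.ax (.s _ _ _)) h1) h2

theorem Loc.toDer (h : Loc T ∅ φ) : Der T φ := by
  induction h with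
  | mem h => exact absurd h (Set.notMem_empty _)
  | der h => exact h
  | mp _ _ h1 h2 => exact .mp h1 h2

theorem Der.of2 (h : Loc T {φ, ψ} χ) : Der T (imp φ (imp ψ χ)) := by
  apply Loc.toDer
  apply Loc.ded
  apply Loc.ded
  refine h.mono ?_
  intro x hx
  rcases hx with rfl | rfl
  · exact Or.inr (Or.inl rfl)
  · exact Or.inl rfl

theorem Der.of1 (h : Loc T {φ} χ) : Der T (imp φ χ) := by
  apply Loc.toDer
  apply Loc.ded
  refine h.mono ?_
  intro x hx
  exact Or.inl hx

theorem Der.syl (h1 : Der T (imp φ ψ)) (h2 : Der T (imp ψ χ)) : Der T (imp φ χ) :=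
  Der.of1 (.mp (.der h2) (.mp (.der h1) (.mem rfl)))

theorem Der.idd (φ : Fm R ar) : Der T (imp φ φ) := Loc.toDer (Loc.id φ)

theorem Der.vac {i : ℕ} (h : i ∉ fv φ) : Der T (imp φ (all i φ)) :=
  .mp (.ax (.dist i φ φ h)) (.gen i (Der.idd φ))

theorem Der.inst' (i : ℕ) (φ : Fm R ar) : Der T (imp (all i φ) φ) := by
  have h : Der T (imp (all i φ) (sub i i φ)) := .ax (.inst i i φ (freeFor_self i φ))
  rwa [sub_self] at h

theorem Der.allImp (i : ℕ) (φ ψ : Fm R ar) :
    Der T (imp (all i (imp φ ψ)) (imp (all i φ) (all i ψ))) := by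
  have h1 : Der T (imp (all i (imp φ ψ)) (imp (all i φ) ψ)) :=
    Der.of2 (.mp (.mp (.der (Der.inst' _ _)) (.mem (Or.inl rfl)))
      (.mp (.der (Der.inst' i φ)) (.mem (Or.inr rfl))))
  have h2 : Der T (imp (all i (imp φ ψ)) (all i (imp (all i φ) ψ))) :=
    .mp (.ax (.dist i _ _ (by simp [fv]))) (.gen i h1)
  have h3 : Der T (imp (all i (imp (all i φ) ψ)) (imp (all i φ) (all i ψ))) :=
    .ax (.dist i _ _ (by simp [fv]))
  exact h2.syl h3

theorem Loc.gen {i : ℕ} (hG : ∀ γ ∈ G, i ∉ fv γ) (h : Loc T G φ) : Loc T G (all i φ) := by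
  induction h with
  | mem h => exact .mp (.der (Der.vac (hG _ h))) (.mem h)
  | der h => exact .der (.gen i h)
  | mp _ _ h1 h2 => exact .mp (.mp (.der (Der.allImp _ _ _)) h1) h2

theorem Loc.botElim (h : Loc T G bot) : Loc T G φ :=
  .mp (.ax (.dn φ)) (.mp (.ax (.k _ _)) h)

theorem Loc.byContra (h : Loc T (insert (neg φ) G) bot) : Loc T G φ :=
  .mp (.ax (.dn φ)) h.ded

/-- every formula has a variant in which `j` is not bound -/
theorem exists_variant (j : ℕ) (φ : Fm R ar) : ∃ φ' : Fm R ar, cplx φ' = cplx φ ∧ nb j φ' ∧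
    (∀ T : Set (Fm R ar), Der T (imp φ φ')) ∧ ∀ T : Set (Fm R ar), Der T (imp φ' φ) := by
  induction φ with
  | bot => exact ⟨bot, rfl, trivial, fun _ => Der.idd _, fun _ => Der.idd _⟩
  | eq a b => exact ⟨eq a b, rfl, trivial, fun _ => Der.idd _, fun _ => Der.idd _⟩
  | rel r v => exact ⟨rel r v, rfl, trivial, fun _ => Der.idd _, fun _ => Der.idd _⟩
  | imp φ ψ h1 h2 =>
    obtain ⟨φ', a1, a2, a3, a4⟩ := h1
    obtain ⟨ψ', b1, b2, b3, b4⟩ := h2
    refine ⟨imp φ' ψ', by simp [cplx, a1, b1], ⟨a2, b2⟩, fun T => ?_, fun T => ?_⟩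
    · exact Der.of2 (.mp (.der (b3 T)) (.mp (.mem (Or.inl rfl))
        (.mp (.der (a4 T)) (.mem (Or.inr rfl)))))
    · exact Der.of2 (.mp (.der (b4 T)) (.mp (.mem (Or.inl rfl))
        (.mp (.der (a3 T)) (.mem (Or.inr rfl)))))
  | all k φ h1 =>
    obtain ⟨φ', a1, a2, a3, a4⟩ := h1
    have hall : ∀ T : Set (Fm R ar), Der T (imp (all k φ) (all k φ')) := fun T =>
      .mp (Der.allImp _ _ _) (.gen k (a3 T))
    have hall' : ∀ T : Set (Fm R ar), Der T (imp (all k φ') (all k φ)) := fun T =>
      .mp (Der.allImp _ _ _) (.gen k (a4 T))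
    by_cases hk : k = j
    · subst hk
      obtain ⟨k', hk'⟩ := Finset.exists_notMem (insert k (occ φ'))
      simp only [Finset.mem_insert, not_or] at hk'
      refine ⟨all k' (sub k k' φ'), by simp [cplx, cplx_sub, a1], ⟨hk'.1, nb_sub _ _ a2⟩,
        fun T => (hall T).syl ?_, fun T => Der.syl ?_ (hall' T)⟩
      · refine .mp (.ax (.dist k' _ _ ?_)) (.gen k' (.ax (.inst k k' φ'
          (freeFor_of_nb k (nb_of_notMem hk'.2)))))
        exact fun h => hk'.2 (fv_sub_occ φ' h.1)
      · refine .mp (.ax (.dist k _ _ ?_)) (.gen k ?_)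
        · exact fun h => notMem_fv_sub (Ne.symm hk'.1) φ' h.1
        · have h := Der.ax (T := T) (.inst k' k (sub k k' φ')
            (freeFor_of_nb k' (nb_sub k k' a2)))
          rwa [sub_sub_cancel hk'.2] at h
    · exact ⟨all k φ', by simp [cplx, a1], ⟨hk, a2⟩, hall, hall'⟩

/-! ### equality -/

theorem Der.symm (i j : ℕ) : Der T (imp (eq i j : Fm R ar) (eq j i)) := by
  obtain ⟨k, hk⟩ := Finset.exists_notMem ({i, j} : Finset ℕ)
  simp only [Finset.mem_insert, Finset.mem_singleton, not_or] at hk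
  have h1 : Der T (imp (eq k j : Fm R ar) (imp (eq k i) (sub k j (eq k i)))) :=
    .ax (.leib k j (eq k i) trivial)
  have e1 : sub k j (eq k i : Fm R ar) = eq j i := by
    simp only [sub, if_true]
    rw [if_neg (Ne.symm hk.1)]
  rw [e1] at h1
  have h2 := Der.mp (.ax (.inst k i (imp (eq k j) (imp (eq k i) (eq j i)))
    ⟨trivial, trivial, trivial⟩)) (h1.gen k)
  have e2 : sub k i (imp (eq k j : Fm R ar) (imp (eq k i) (eq j i))) =
      imp (eq i j) (imp (eq i i) (eq j i)) := by
    simp only [sub, if_true]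
    rw [if_neg (Ne.symm hk.1), if_neg (Ne.symm hk.2)]
  rw [e2] at h2
  exact Der.of1 (.mp (.mp (.der h2) (.mem rfl)) (.ax (.refl i)))

theorem Der.trans (i j k : ℕ) : Der T (imp (eq i j : Fm R ar) (imp (eq j k) (eq i k))) := by
  by_cases hij : i = j
  · subst hij
    exact Der.of2 (.mem (Or.inr rfl))
  · have h1 : Der T (imp (eq j k : Fm R ar) (imp (eq i j) (sub j k (eq i j)))) :=
      .ax (.leib j k (eq i j) trivial)
    have e1 : sub j k (eq i j : Fm R ar) = eq i k := by
      simp only [sub, if_true]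
      rw [if_neg hij]
    rw [e1] at h1
    exact Der.of2 (.mp (.mp (.der h1) (.mem (Or.inr rfl))) (.mem (Or.inl rfl)))

theorem Der.relUpd (r : R) (v : Fin (ar r) → ℕ) (k : Fin (ar r)) (y : ℕ) :
    Der T (imp (eq (v k) y) (imp (rel r v) (rel r (Function.update v k y)))) := by
  obtain ⟨z, hz⟩ := Finset.exists_notMem (insert y (Finset.univ.image v))
  simp only [Finset.mem_insert, Finset.mem_image, Finset.mem_univ, true_and, not_or,
    not_exists] at hz
  have h1 : Der T (imp (eq z y : Fm R ar) (imp (rel r (Function.update v k z))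
      (sub z y (rel r (Function.update v k z))))) := .ax (.leib z y _ trivial)
  have e1 : sub z y (rel r (Function.update v k z)) = rel r (Function.update v k y) := by
    simp only [sub]
    congr 1
    funext l
    by_cases hl : l = k
    · subst hl; simp
    · rw [Function.update_of_ne hl, Function.update_of_ne hl, if_neg (hz.2 l)]
  rw [e1] at h1
  have h2 := Der.mp (.ax (.inst z (v k) (imp (eq z y) (imp (rel r (Function.update v k z))
    (rel r (Function.update v k y)))) ⟨trivial, trivial, trivial⟩)) (h1.gen z)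
  have e2 : sub z (v k) (imp (eq z y : Fm R ar) (imp (rel r (Function.update v k z))
      (rel r (Function.update v k y)))) =
      imp (eq (v k) y) (imp (rel r v) (rel r (Function.update v k y))) := by
    simp only [sub, if_true]
    rw [if_neg (Ne.symm hz.1)]
    congr 2
    · congr 1
      funext l
      by_cases hl : l = k
      · subst hl; simp
      · rw [Function.update_of_ne hl, if_neg (hz.2 l)]
    · congr 1
      funext l
      by_cases hl : l = k
      · subst hl
        rw [Function.update_self, if_neg (Ne.symm hz.1)]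
      · rw [Function.update_of_ne hl, if_neg (hz.2 l)]
  rw [e2] at h2
  exact h2

end der

/-! ### countability -/

/-- codes of formulas -/
def encF (g : R → ℕ) : Fm R ar → List ℕ
  | bot => [0]
  | eq i j => [1, i, j]
  | rel r v => 2 :: g r :: List.ofFn v
  | imp φ ψ => 3 :: (encF g φ ++ encF g ψ)
  | all i φ => 4 :: i :: encF g φ

theorem encF_inj {g : R → ℕ} (hg : Function.Injective g) (φ : Fm R ar) :
    ∀ (ψ : Fm R ar) (l l' : List ℕ), encF g φ ++ l = encF g ψ ++ l' → φ = ψ ∧ l = l' := by
  induction φ with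
  | bot =>
    intro ψ l l' h
    cases ψ <;> simp [encF] at h
    exact ⟨rfl, h⟩
  | eq i j =>
    intro ψ l l' h
    cases ψ <;> simp [encF] at h
    obtain ⟨rfl, rfl, rfl⟩ := h
    exact ⟨rfl, rfl⟩
  | rel r v =>
    intro ψ l l' h
    cases ψ with
    | rel r' v' =>
      simp only [encF, List.cons_append, List.cons.injEq, true_and] at h
      obtain ⟨h1, h2⟩ := h
      obtain rfl := hg h1
      obtain ⟨h3, h4⟩ := List.append_inj h2 (by simp)
      obtain rfl := List.ofFn_injective h3
      exact ⟨rfl, h4⟩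
    | _ => simp [encF] at h
  | imp φ1 φ2 h1 h2 =>
    intro ψ l l' h
    cases ψ with
    | imp ψ1 ψ2 =>
      simp only [encF, List.cons_append, List.cons.injEq, true_and, List.append_assoc] at h
      obtain ⟨rfl, h'⟩ := h1 _ _ _ h
      obtain ⟨rfl, h''⟩ := h2 _ _ _ h'
      exact ⟨rfl, h''⟩
    | _ => simp [encF] at h
  | all i φ h1 =>
    intro ψ l l' h
    cases ψ with
    | all i' ψ' =>
      simp only [encF, List.cons_append, List.cons.injEq, true_and] at h
      obtain ⟨rfl, h'⟩ := h
      obtain ⟨rfl, h''⟩ := h1 _ _ _ h'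
      exact ⟨rfl, h''⟩
    | _ => simp [encF] at h

instance [Countable R] : Countable (Fm R ar) := by
  obtain ⟨g, hg⟩ := exists_injective_nat R
  refine Function.Injective.countable (f := encF g) fun φ ψ h => ?_
  exact (encF_inj hg φ ψ [] [] (by simpa using h)).1

/-! ### the Henkin construction -/

section henkin

variable (T : Set (Fm R ar))

/-- consistency of a set of local assumptions -/
def LCon (G : Set (Fm R ar)) : Prop := ¬ Loc T G bot

variable {T}

/-- one step: a finite consistent set can be extended by the decision of `χ` and a witness -/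
theorem henkin_step (G : Finset (Fm R ar)) (hG : LCon T (G : Set (Fm R ar))) (χ : Fm R ar) :
    ∃ G' : Finset (Fm R ar), G ⊆ G' ∧ LCon T (G' : Set (Fm R ar)) ∧ (χ ∈ G' ∨ neg χ ∈ G') ∧
      ∀ i ψ, χ = all i ψ → χ ∈ G' ∨ ∃ j, j ∉ occ ψ ∧ neg (sub i j ψ) ∈ G' := by
  classical
  by_cases h : LCon T (insert χ (G : Set (Fm R ar)))
  · refine ⟨insert χ G, Finset.subset_insert _ _, by simpa using h, Or.inl (by simp),
      fun i ψ _ => Or.inl (by simp)⟩
  · have h1 : Loc T (G : Set (Fm R ar)) (neg χ) := by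
      unfold LCon at h
      exact (not_not.1 h).ded
    have h2 : LCon T (insert (neg χ) (G : Set (Fm R ar))) := fun h' =>
      hG (.mp h'.ded h1)
    by_cases hall : ∃ i ψ, χ = all i ψ
    · obtain ⟨i, ψ, rfl⟩ := hall
      obtain ⟨j, hj⟩ := Finset.exists_notMem (insert i (occ ψ) ∪ G.biUnion occ)
      simp only [Finset.mem_union, Finset.mem_insert, Finset.mem_biUnion, not_or, not_exists,
        not_and] at hj
      refine ⟨insert (neg (sub i j ψ)) (insert (neg (all i ψ)) G), ?_, ?_, Or.inr (by simp),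
        fun i' ψ' e => Or.inr ?_⟩
      · intro x hx; simp [hx]
      · intro h'
        have h3 : Loc T (insert (neg (all i ψ)) (G : Set (Fm R ar))) (sub i j ψ) := by
          refine Loc.byContra ?_
          simpa using h'
        have h4 : Loc T (insert (neg (all i ψ)) (G : Set (Fm R ar))) (all j (sub i j ψ)) := by
          refine Loc.gen ?_ h3
          rintro γ (rfl | hγ) hjγ
          · simp only [neg, fv, Set.union_empty] at hjγ
            exact hj.1.2 (fv_sub_occ ψ hjγ.1)
          · exact hj.2 γ hγ (fv_sub_occ γ hjγ)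
        have h5 : Der T (imp (all j (sub i j ψ)) (all i ψ)) := by
          refine .mp (.ax (.dist i _ _ ?_)) (.gen i ?_)
          · exact fun h => notMem_fv_sub (Ne.symm hj.1.1) ψ h.1
          · have h := Der.ax (T := T) (.inst j i (sub i j ψ) (freeFor_back hj.1.2))
            rwa [sub_sub_cancel hj.1.2] at h
        exact h2 (.mp (.mem (Or.inl rfl)) (.mp (.der h5) h4))
      · simp only [Fm.all.injEq] at e
        obtain ⟨rfl, rfl⟩ := e
        exact ⟨j, hj.1.2, by simp⟩
    · refine ⟨insert (neg χ) G, Finset.subset_insert _ _, by simpa using h2, Or.inr (by simp),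
        fun i ψ e => absurd ⟨i, ψ, e⟩ hall⟩

/-- a finite consistent set -/
abbrev FinCon (T : Set (Fm R ar)) : Type := {G : Finset (Fm R ar) // LCon T (G : Set (Fm R ar))}

/-- the chain of finite sets -/
noncomputable def chain (G0 : FinCon T) (e : ℕ → Fm R ar) : ℕ → FinCon T
  | 0 => G0
  | n + 1 => ⟨(henkin_step (chain G0 e n).1 (chain G0 e n).2 (e n)).choose,
      (henkin_step (chain G0 e n).1 (chain G0 e n).2 (e n)).choose_spec.2.1⟩

theorem chain_succ (G0 : FinCon T) (e : ℕ → Fm R ar) (n : ℕ) :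
    (chain G0 e n).1 ⊆ (chain G0 e (n + 1)).1 ∧
    (e n ∈ (chain G0 e (n + 1)).1 ∨ neg (e n) ∈ (chain G0 e (n + 1)).1) ∧
    ∀ i ψ, e n = all i ψ → e n ∈ (chain G0 e (n + 1)).1 ∨
      ∃ j, j ∉ occ ψ ∧ neg (sub i j ψ) ∈ (chain G0 e (n + 1)).1 :=
  ⟨(henkin_step (chain G0 e n).1 (chain G0 e n).2 (e n)).choose_spec.1,
    (henkin_step (chain G0 e n).1 (chain G0 e n).2 (e n)).choose_spec.2.2⟩

theorem chain_mono (G0 : FinCon T) (e : ℕ → Fm R ar) {m n : ℕ} (h : m ≤ n) :
    (chain G0 e m).1 ⊆ (chain G0 e n).1 := by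
  induction h with
  | refl => exact subset_rfl
  | step _ ih => exact ih.trans (chain_succ G0 e _).1

/-- The properties of a maximal consistent Henkin set. -/
structure Henkin (T D : Set (Fm R ar)) : Prop where
  con : LCon T D
  dec : ∀ χ, χ ∈ D ∨ neg χ ∈ D
  wit : ∀ i ψ, all i ψ ∉ D → ∃ j, j ∉ occ ψ ∧ neg (sub i j ψ) ∈ D

theorem exists_henkin [Countable R] (G0 : FinCon T) :
    ∃ D : Set (Fm R ar), (G0.1 : Set (Fm R ar)) ⊆ D ∧ Henkin T D := by
  have : Nonempty (Fm R ar) := ⟨bot⟩
  obtain ⟨e, he⟩ := exists_surjective_nat (Fm R ar)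
  have hloc : ∀ φ, Loc T {φ | ∃ n, φ ∈ (chain G0 e n).1} φ →
      ∃ n, Loc T ((chain G0 e n).1 : Set (Fm R ar)) φ := by
    intro φ h
    induction h with
    | mem h =>
      obtain ⟨n, hn⟩ := h
      exact ⟨n, .mem hn⟩
    | der h => exact ⟨0, .der h⟩
    | mp _ _ h1 h2 =>
      obtain ⟨m, h1⟩ := h1
      obtain ⟨n, h2⟩ := h2
      exact ⟨max m n, .mp (h1.mono fun x hx => chain_mono G0 e (le_max_left _ _) hx)
        (h2.mono fun x hx => chain_mono G0 e (le_max_right _ _) hx)⟩
  refine ⟨{φ | ∃ n, φ ∈ (chain G0 e n).1}, fun x hx => ⟨0, hx⟩, ?_, ?_, ?_⟩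
  · intro h
    obtain ⟨n, hn⟩ := hloc _ h
    exact (chain G0 e n).2 hn
  · intro χ
    obtain ⟨n, rfl⟩ := he χ
    rcases (chain_succ G0 e n).2.1 with h | h
    · exact Or.inl ⟨_, h⟩
    · exact Or.inr ⟨_, h⟩
  · intro i ψ hψ
    obtain ⟨n, hn⟩ := he (all i ψ)
    rcases (chain_succ G0 e n).2.2 i ψ hn with h | ⟨j, hj, h⟩
    · rw [hn] at h
      exact absurd ⟨_, h⟩ hψ
    · exact ⟨j, hj, _, h⟩

variable {D : Set (Fm R ar)}

theorem Henkin.closed (hD : Henkin T D) {φ : Fm R ar} (h : Loc T D φ) : φ ∈ D := by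
  rcases hD.dec φ with h' | h'
  · exact h'
  · exact absurd (Loc.mp (.mem h') h) hD.con

theorem Henkin.neg_iff (hD : Henkin T D) {φ : Fm R ar} : neg φ ∈ D ↔ φ ∉ D := by
  constructor
  · intro h h'
    exact hD.con (.mp (.mem h) (.mem h'))
  · intro h
    exact (hD.dec φ).resolve_left h

theorem Henkin.imp_iff (hD : Henkin T D) {φ ψ : Fm R ar} : imp φ ψ ∈ D ↔ (φ ∈ D → ψ ∈ D) := by
  constructor
  · intro h h'
    exact hD.closed (.mp (.mem h) (.mem h'))
  · intro h
    by_cases h' : φ ∈ D
    · exact hD.closed (.mp (.ax (.k _ _)) (.mem (h h')))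
    · refine hD.closed (Loc.ded (Loc.botElim ?_))
      exact .mp (.mem (Or.inr (hD.neg_iff.2 h'))) (.mem (Or.inl rfl))

/-- the equivalence relation of variables -/
def Henkin.setoid (hD : Henkin T D) : Setoid ℕ where
  r i j := (eq i j : Fm R ar) ∈ D
  iseqv := ⟨fun i => hD.closed (.ax (.refl i)),
    fun {i j} h => hD.closed (.mp (.der (Der.symm i j)) (.mem h)),
    fun {i j k} h h' => hD.closed (.mp (.mp (.der (Der.trans i j k)) (.mem h)) (.mem h'))⟩

theorem Henkin.rel_congr (hD : Henkin T D) (r : R) (v v' : Fin (ar r) → ℕ)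
    (h : ∀ k, (eq (v k) (v' k) : Fm R ar) ∈ D) : rel r v ∈ D → rel r v' ∈ D := by
  intro hv
  have key : ∀ S : Finset (Fin (ar r)), rel r (fun k => if k ∈ S then v' k else v k) ∈ D := by
    intro S
    induction S using Finset.induction_on with
    | empty => simpa using hv
    | insert k S hk ih =>
      have h1 := Der.relUpd (T := T) r (fun k => if k ∈ S then v' k else v k) k (v' k)
      simp only [hk, if_false] at h1
      have h2 := hD.closed (.mp (.mp (.der h1) (.mem (h k))) (.mem ih))
      convert h2 using 2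
      funext l
      by_cases hl : l = k
      · subst hl; simp
      · rw [Function.update_of_ne hl]
        simp [hl]
  simpa using key Finset.univ

/-- the structure of a Henkin set -/
def Henkin.str (hD : Henkin T D) (r : R) (v : Fin (ar r) → Quotient hD.setoid) : Prop :=
  rel r (fun k => (v k).out) ∈ D

theorem Henkin.str_iff (hD : Henkin T D) (r : R) (v : Fin (ar r) → ℕ) :
    hD.str r (fun k => (Quotient.mk hD.setoid (v k))) ↔ rel r v ∈ D := by
  constructor
  · exact hD.rel_congr r _ _ fun k => Quotient.mk_out (s := hD.setoid) (v k)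
  · exact hD.rel_congr r _ _ fun k => hD.setoid.symm (Quotient.mk_out (s := hD.setoid) (v k))

theorem Henkin.truth (hD : Henkin T D) : ∀ (n : ℕ) (φ : Fm R ar), cplx φ = n →
    (Sat hD.str (fun i => Quotient.mk hD.setoid i) φ ↔ φ ∈ D) := by
  intro n
  induction n using Nat.strong_induction_on with
  | _ n ih =>
    intro φ hn
    cases φ with
    | bot =>
      show False ↔ _
      exact ⟨fun h => h.elim, fun h => hD.con (.mem h)⟩
    | eq i j =>
      show (Quotient.mk hD.setoid i = Quotient.mk hD.setoid j ↔ _)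
      rw [Quotient.eq]
      exact Iff.rfl
    | rel r v => exact hD.str_iff r v
    | imp φ ψ =>
      simp only [cplx] at hn
      rw [hD.imp_iff, ← ih (cplx φ) (by omega) φ rfl, ← ih (cplx ψ) (by omega) ψ rfl]
      exact Iff.rfl
    | all i ψ =>
      simp only [cplx] at hn
      constructor
      · intro h
        by_contra hnot
        obtain ⟨j, hj, hw⟩ := hD.wit i ψ hnot
        have h1 := (sat_sub hD.str (s := fun i => Quotient.mk hD.setoid i)
          (freeFor_of_nb i (nb_of_notMem hj))).2 (h (Quotient.mk hD.setoid j))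
        have h2 := (ih (cplx (sub i j ψ)) (by rw [cplx_sub]; omega) (sub i j ψ) rfl).1 h1
        exact hD.neg_iff.1 hw h2
      · intro h x
        obtain ⟨j, rfl⟩ := Quotient.exists_rep x
        obtain ⟨ψ', a1, a2, a3, a4⟩ := exists_variant j ψ
        have h1 : all i ψ' ∈ D :=
          hD.closed (.mp (.der (.mp (Der.allImp _ _ _) (.gen i (a3 T)))) (.mem h))
        have h2 : sub i j ψ' ∈ D :=
          hD.closed (.mp (.ax (.inst i j ψ' (freeFor_of_nb i a2))) (.mem h1))
        have h3 := (ih (cplx (sub i j ψ')) (by rw [cplx_sub]; omega) (sub i j ψ') rfl).2 h2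
        have h4 := (sat_sub hD.str (freeFor_of_nb i a2)).1 h3
        exact (a4 ∅).sound hD.str (by simp) _ h4

/-- universal closure over a list of variables -/
def alls : List ℕ → Fm R ar → Fm R ar
  | [], φ => φ
  | i :: L, φ => all i (alls L φ)

theorem Der.alls {φ : Fm R ar} (h : Der T φ) (L : List ℕ) : Der T (alls L φ) := by
  induction L with
  | nil => exact h
  | cons i L ih => exact ih.gen i

theorem sat_alls {M : Type} (I : (r : R) → (Fin (ar r) → M) → Prop) (φ : Fm R ar) (L : List ℕ) :
    ∀ s s' : ℕ → M, (∀ i, i ∉ L → s i = s' i) → Sat I s (Pool.Agent.MP_f85ba2_lc.alls L φ) →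
      Sat I s' φ := by
  induction L with
  | nil =>
    intro s s' h hs
    have : s = s' := funext fun i => h i (by simp)
    rw [← this]; exact hs
  | cons i L ih =>
    intro s s' h hs
    refine ih (Function.update s i (s' i)) s' (fun k hk => ?_) (hs (s' i))
    by_cases hki : k = i
    · subst hki; simp
    · rw [Function.update_of_ne hki]
      exact h k (by simp [hki, hk])

theorem sat_of_der {M : Type} (I : (r : R) → (Fin (ar r) → M) → Prop) {φ : Fm R ar}
    (s : ℕ → M) (h : ∀ L, Sat I s (Pool.Agent.MP_f85ba2_lc.alls L φ)) (s' : ℕ → M) :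
    Sat I s' φ := by
  classical
  have h1 := sat_alls I φ (occ φ).toList s (fun i => if i ∈ occ φ then s' i else s i)
    (fun i hi => by
      have : i ∉ occ φ := fun h => hi (by simpa using h)
      simp [this]) (h _)
  refine (sat_congr I fun i hi => ?_).1 h1
  have : i ∈ occ φ := fv_sub_occ φ hi
  simp [this]

/-- **Completeness.** -/
theorem completeness [Countable R] (T : Set (Fm R ar)) (φ : Fm R ar)
    (h : ∀ (M : Type) (I : (r : R) → (Fin (ar r) → M) → Prop), Nonempty M → Countable M →
      (∀ ψ ∈ T, ∀ s, Sat I s ψ) → ∀ s, Sat I s φ) : ∃ m, Proves T m φ := by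
  by_contra hno
  have hcon : LCon T (({neg φ} : Finset (Fm R ar)) : Set (Fm R ar)) := by
    intro h'
    apply hno
    apply Loc.toDer
    refine Loc.byContra (h'.mono ?_)
    simp
  obtain ⟨D, hD0, hD⟩ := exists_henkin (⟨{neg φ}, hcon⟩ : FinCon T)
  have h1 : neg φ ∈ D := hD0 (by simp)
  have hT : ∀ ψ, Der T ψ → ∀ s, Sat hD.str s ψ := by
    intro ψ hψ s
    refine sat_of_der hD.str (fun i => Quotient.mk hD.setoid i) (fun L => ?_) s
    exact (hD.truth _ _ rfl).2 (hD.closed (.der (hψ.alls L)))
  have h2 := h (Quotient hD.setoid) hD.str ⟨Quotient.mk hD.setoid 0⟩ inferInstance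
    (fun ψ hψ => hT ψ (.hyp hψ)) (fun i => Quotient.mk hD.setoid i)
  exact hD.neg_iff.1 h1 ((hD.truth _ φ rfl).1 h2)

end henkin

end Pool.Agent.MP_f85ba2_lc
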