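import Mathlib
import Pool.Agent.MP_f85ba2_lc.Calculus
import Pool.Agent.MP_f85ba2_lc.Barrier

set_option autoImplicit false

/-!
# No verifiable short proofs of `Con_{A+Con_A(2^n)}(n^k)`
-/

open Pool.Agent.MP_f85ba2_lc Pool.Agent.MP_f85ba2_lc.Fm

theorem Pool.Agent.Results.MP_f85ba2_lc.NoVerifiableProofs.result
    (R : Type) (ar : R → ℕ) (A : Set (Fm R ar)) (S : Numeration A) (hA : Consistent A) :
    (∃ K : ℕ, ∀ N M L m : ℕ,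
      (m + Nat.size N + 2) ^ K ≤ M → L + (M + Nat.size N + 2) ^ K ≤ N →
        ¬ Proves A m (S.PA L (neg (S.PB N M bot)))) ∧
    ∀ j : ℕ, ∃ k₀ : ℕ, ∀ k, k₀ ≤ k → ∃ n₀ : ℕ, ∀ n, n₀ ≤ n → ∀ L, L ≤ 2 ^ (n - 1) →
      ¬ Proves A (n ^ j) (S.PA L (neg (S.PB (2 ^ n) (n ^ k) bot))) :=
  ⟨barrier S hA, barrier_pow S hA⟩
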